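import Mathlib
import Pool.Agent.R812.StrongD

/-!
# Spaces of continuous maps into a strong d-space with the pointwise topology
-/

set_option autoImplicit false

open Set

namespace Pool.Agent.Results.MP_5f2357_gt.PointwiseMapsFail

open Pool.Agent.R812.StrongD

universe u

/-- There is a strong d-space `Y` such that for every topological space `X` with a nonempty proper
clopen subset (for example for `X` the discrete space with two points) the space of all continuous
maps from `X` to `Y` with the topology of pointwise convergence is not a strong d-space. -/
theorem result :
    ∃ (Y : Type) (_ : TopologicalSpace Y), StrongDSpace Y ∧ ¬ StrongDSpace (PointwiseMaps Bool Y) ∧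
      ∀ (X : Type u) [TopologicalSpace X] (V : Set X), IsClopen V → V.Nonempty → V ≠ univ →
        ¬ StrongDSpace (PointwiseMaps X Y) := by
  refine ⟨S, inferInstance, strongDSpace_S, ?_, fun X _ V hV h1 h2 => not_strongDSpace_maps X hV h1 h2⟩
  refine not_strongDSpace_maps Bool (V := {true}) (isClopen_discrete _) (singleton_nonempty _) ?_
  intro h
  have : false ∈ ({true} : Set Bool) := h ▸ mem_univ _
  cases this

end Pool.Agent.Results.MP_5f2357_gt.PointwiseMapsFail
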